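import Pool.Agent.helper71.CL.Spec

set_option autoImplicit false

open MeasureTheory Set Filter Topology
open scoped ENNReal
open Pool.Agent.helper81.CW

noncomputable section

namespace Pool.Agent.CL

theorem LAY_one (t r : ℝ) (ht : 0 < t) (hr : 0 ≤ r) :
    ENNReal.ofReal (Real.exp (t * (1 - r ^ 2))) =
      ∫⁻ ρ in Ioi r, ENNReal.ofReal (2 * t * ρ * Real.exp (t * (1 - ρ ^ 2))) := by
  have hd : ∀ x ∈ Ici r, HasDerivAt (fun ρ : ℝ => -Real.exp (t * (1 - ρ ^ 2)))
      (2 * t * x * Real.exp (t * (1 - x ^ 2))) x := by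
    intro x _
    have h1 : HasDerivAt (fun ρ : ℝ => t * (1 - ρ ^ 2)) (t * (-(2 * x))) x := by
      have h2 := (hasDerivAt_pow 2 x).const_sub 1
      have h3 := h2.const_mul t
      simpa using h3
    have h4 := h1.exp.neg
    have h5 : -(Real.exp (t * (1 - x ^ 2)) * (t * -(2 * x))) =
        2 * t * x * Real.exp (t * (1 - x ^ 2)) := by ring
    rw [← h5]
    exact h4
  have hpos : ∀ x ∈ Ioi r, 0 ≤ 2 * t * x * Real.exp (t * (1 - x ^ 2)) := by
    intro x hx
    have hx0 : 0 ≤ x := le_trans hr (le_of_lt hx)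
    positivity
  have hlim : Tendsto (fun ρ : ℝ => -Real.exp (t * (1 - ρ ^ 2))) atTop (𝓝 0) := by
    have h1 : Tendsto (fun ρ : ℝ => t * (1 - ρ ^ 2)) atTop atBot := by
      apply Tendsto.const_mul_atBot ht
      have h2 : Tendsto (fun ρ : ℝ => ρ ^ 2) atTop atTop := tendsto_pow_atTop (by norm_num)
      exact tendsto_atBot_add_const_left _ 1 (tendsto_neg_atTop_atBot.comp h2)
    have h3 := (Real.tendsto_exp_atBot.comp h1).neg
    simpa using h3
  have hint := integrableOn_Ioi_deriv_of_nonneg' hd hpos hlim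
  have hval := integral_Ioi_of_hasDerivAt_of_nonneg' hd hpos hlim
  rw [← ofReal_integral_eq_lintegral_ofReal hint, hval]
  · congr 1
    ring
  · filter_upwards [ae_restrict_mem measurableSet_Ioi] with x hx using hpos x hx

theorem LAY (hFAR : FAR_stmt) : LAY_stmt := by
  intro n C t hC hCne ht
  set φ : ℝ → ℝ≥0∞ := fun ρ => ENNReal.ofReal (2 * t * ρ * Real.exp (t * (1 - ρ ^ 2))) with hφ
  have hφm : Measurable φ := by
    rw [hφ]
    fun_prop
  have hfar0 : ∀ x : E n, 0 ≤ far C x := by
    intro x
    obtain ⟨c, hc, h⟩ := (hFAR n C hC hCne x x).2.1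
    rw [← h]
    exact norm_nonneg _
  have hfarm : Measurable (far C : E n → ℝ) := by
    have hL : LipschitzWith 1 (far C : E n → ℝ) := by
      apply LipschitzWith.of_dist_le_mul
      intro x y
      rw [Real.dist_eq, dist_eq_norm, NNReal.coe_one, one_mul]
      exact (hFAR n C hC hCne x y).2.2.1
    exact hL.continuous.measurable
  have h1 : II C t = ∫⁻ x : E n, ∫⁻ ρ in Ioi (0 : ℝ), (Ioi (far C x)).indicator φ ρ := by
    unfold II
    refine lintegral_congr fun x => ?_
    rw [setLIntegral_indicator measurableSet_Ioi,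
      Set.inter_eq_left.mpr (Ioi_subset_Ioi (hfar0 x))]
    exact LAY_one t (far C x) ht (hfar0 x)
  rw [h1, lintegral_lintegral_swap]
  · refine lintegral_mono fun ρ => ?_
    have h2 : (fun x : E n => (Ioi (far C x)).indicator φ ρ) =
        {x : E n | far C x < ρ}.indicator (fun _ => φ ρ) := by
      funext x
      by_cases h : far C x < ρ
      · rw [Set.indicator_of_mem (show ρ ∈ Ioi (far C x) from h),
          Set.indicator_of_mem (show x ∈ {x : E n | far C x < ρ} from h)]
      · rw [Set.indicator_of_notMem (show ρ ∉ Ioi (far C x) from h),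
          Set.indicator_of_notMem (show x ∉ {x : E n | far C x < ρ} from h)]
    show ∫⁻ x : E n, (Ioi (far C x)).indicator φ ρ ≤ φ ρ * VV C ρ
    rw [h2, lintegral_indicator_const (measurableSet_lt hfarm measurable_const)]
    gcongr
    unfold VV
    exact measure_mono fun x (hx : far C x < ρ) => le_of_lt hx
  · apply Measurable.aemeasurable
    have h3 : (Function.uncurry fun (x : E n) (ρ : ℝ) => (Ioi (far C x)).indicator φ ρ) =
        {p : E n × ℝ | far C p.1 < p.2}.indicator (fun p => φ p.2) := by
      funext p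
      by_cases h : far C p.1 < p.2
      · rw [Set.indicator_of_mem (show p ∈ {p : E n × ℝ | far C p.1 < p.2} from h)]
        exact Set.indicator_of_mem (show p.2 ∈ Ioi (far C p.1) from h) φ
      · rw [Set.indicator_of_notMem (show p ∉ {p : E n × ℝ | far C p.1 < p.2} from h)]
        exact Set.indicator_of_notMem (show p.2 ∉ Ioi (far C p.1) from h) φ
    rw [h3]
    exact (hφm.comp measurable_snd).indicator
      (measurableSet_lt (hfarm.comp measurable_fst) measurable_snd)

end Pool.Agent.CL
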